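import Pool.Agent.H18.VZ.Targets

/-!
# Non-fibered rational self-maps (`MP_0cda1a_ag`), row IND: the logarithmic forms are linearly
independent
-/

open MvPolynomial
open Pool.Agent.H12.ZD (pmap)
open Pool.Agent.H18.HIT Pool.Agent.H18.HX Pool.Agent.H18.VZ

namespace Pool.Agent.H19.VZ

theorem pderiv_eq_zero_of_dvd {N : ℕ} {k : Type} [Field k] (h : Po N k) (i : Fin N)
    (hd : h ∣ pderiv i h) : pderiv i h = 0 := by
  by_contra hne
  obtain ⟨c, hc⟩ := hd
  have hh : h ≠ 0 := by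
    rintro rfl
    exact hne (by simp)
  have hc0 : c ≠ 0 := by
    rintro rfl
    rw [mul_zero] at hc
    exact hne hc
  have h1 : (pderiv i h).totalDegree = h.totalDegree + c.totalDegree := by
    rw [hc, totalDegree_mul_of_isDomain hh hc0]
  obtain ⟨s, hs, hs'⟩ : ∃ s ∈ (pderiv i h).support,
      (pderiv i h).totalDegree = s.sum fun _ e => e :=
    (pderiv i h).support.exists_mem_eq_sup (support_nonempty.2 hne) _
  have h2 : coeff (s + Finsupp.single i 1) h ≠ 0 := by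
    intro h0
    rw [mem_support_iff, coeff_pderiv, h0, zero_mul] at hs
    exact hs rfl
  have h3 := le_totalDegree (mem_support_iff.2 h2)
  rw [Finsupp.sum_add_index' (fun _ => rfl) (fun _ _ _ => rfl),
    Finsupp.sum_single_index rfl] at h3
  omega

theorem not_irreducible_of_pderiv {N : ℕ} {k : Type} [Field k] [CharZero k] (h : Po N k)
    (hd : ∀ i, h ∣ pderiv i h) : ¬ Irreducible h := by
  intro hirr
  have h1 : h = C (coeff 0 h) := by
    ext m
    rw [coeff_C]
    by_cases hm : (0 : Fin N →₀ ℕ) = m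
    · rw [if_pos hm, hm]
    · rw [if_neg hm]
      obtain ⟨i, hi⟩ : ∃ i, m i ≠ 0 := by
        by_contra hcon
        push Not at hcon
        exact hm (by ext i; rw [hcon i]; rfl)
      have h2 : coeff (m - Finsupp.single i 1) (pderiv i h) = 0 := by
        rw [pderiv_eq_zero_of_dvd h i (hd i), coeff_zero]
      have h3 : m - Finsupp.single i 1 + Finsupp.single i 1 = m :=
        tsub_add_cancel_of_le (Finsupp.single_le_iff.2 (Nat.one_le_iff_ne_zero.2 hi))
      rw [coeff_pderiv, h3] at h2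
      rcases mul_eq_zero.1 h2 with h4 | h4
      · exact h4
      · exfalso
        have h5 : (((m - Finsupp.single i 1 : Fin N →₀ ℕ) i + 1 : ℕ) : k) = 0 := by
          push_cast
          exact h4
        exact Nat.succ_ne_zero _ (Nat.cast_eq_zero.1 h5)
  apply hirr.not_isUnit
  have hne : coeff 0 h ≠ 0 := by
    intro h0
    rw [h0, C_0] at h1
    exact hirr.ne_zero h1
  rw [h1]
  exact (isUnit_iff_ne_zero.2 hne).map C

theorem pf_IND (hAG : T_AG) : Pool.Agent.H18.VZ.T_IND := by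
  classical
  intro N r s k _ _ _ P ρ A B H h a w m hP hρ hH hhρ hhh hL lam hrel
  funext l₀
  by_contra hlam
  obtain ⟨κ, iκ, iaκ, ψs, hspl, -, -, hex⟩ := hAG N r k P (h l₀) ρ A B hP (hH l₀).irr hρ (hhρ l₀)
  obtain ⟨j, hj⟩ := hex (H l₀) (hH l₀)
  have harc : Arc P (ψs j) := hspl.arc j
  set ψ := ψs j with hψ
  have hψP : ψ P = 0 := (harc P).2 dvd_rfl
  have hPx : rd ψ (pderiv 0 P) ≠ 0 := by
    intro h0
    have h1 : up ρ ∉ H l₀ := fun hc => hhρ l₀ (((hH l₀).iff ρ).1 hc)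
    apply h1
    rw [← hj]
    have h2 : ψ (up ρ) = ψ B * ψ (pderiv 0 P) := by
      rw [hρ, map_add, map_mul, map_mul, hψP, mul_zero, zero_add]
    unfold rd at h0 ⊢
    rw [h2, map_mul, h0, mul_zero]
  have hunit : IsUnit (ψ (pderiv 0 P)) :=
    PowerSeries.isUnit_iff_constantCoeff.2 (isUnit_iff_ne_zero.2 hPx)
  have hw0 : ∀ l, ψ (w l) ≠ 0 := fun l h0 => (hL l).ne ((harc _).1 h0)
  have hreg : ∀ l, l ≠ l₀ → ∀ i, ψ (w l) ∣ ψ (a l i) := by
    intro l hl i
    have h1 : ∃ c ∈ H l, rd ψ c ≠ 0 := by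
      refine ⟨up (h l), ((hH l).iff _).2 dvd_rfl, ?_⟩
      intro h0
      exact hhh l₀ l (Ne.symm hl) (((hH l₀).iff _).1 ((hj _).1 h0))
    have h2 := (hL l).reg κ ψ harc h1 i
    rw [map_mul] at h2
    exact (hunit.dvd_mul_left).1 h2
  have hkey : ∀ i, h l₀ ∣ pderiv i (h l₀) := by
    intro i
    have hres := (hL l₀).res κ ψ harc hj hPx i
    rw [map_mul, map_sub, map_mul, map_mul] at hres
    -- the relation
    have h1 : ψ (∑ l, C (lam l) * a l i * ∏ l' ∈ Finset.univ.erase l, w l') = 0 :=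
      (harc _).2 (hrel i)
    rw [map_sum] at h1
    have h2 : ∀ l, ψ (C (lam l) * a l i * ∏ l' ∈ Finset.univ.erase l, w l') =
        algebraMap k (PowerSeries κ) (lam l) * ψ (a l i) *
          ∏ l' ∈ Finset.univ.erase l, ψ (w l') := by
      intro l
      rw [map_mul, map_mul, map_prod]
      congr 2
      exact AlgHom.commutes ψ (lam l)
    simp_rw [h2] at h1
    rw [← Finset.add_sum_erase _ _ (Finset.mem_univ l₀)] at h1
    have hY' : ∏ l' ∈ Finset.univ.erase l₀, ψ (w l') ≠ 0 :=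
      Finset.prod_ne_zero_iff.2 fun l _ => hw0 l
    have h3 : ψ (w l₀) * ∏ l' ∈ Finset.univ.erase l₀, ψ (w l') ∣
        ∑ l ∈ Finset.univ.erase l₀, algebraMap k (PowerSeries κ) (lam l) * ψ (a l i) *
          ∏ l' ∈ Finset.univ.erase l, ψ (w l') := by
      refine Finset.dvd_sum fun l hl => ?_
      have h4 : ψ (w l₀) * ∏ l' ∈ Finset.univ.erase l₀, ψ (w l') =
          ψ (w l) * ∏ l' ∈ Finset.univ.erase l, ψ (w l') := by
        rw [Finset.mul_prod_erase _ (fun l => ψ (w l)) (Finset.mem_univ l₀),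
          Finset.mul_prod_erase _ (fun l => ψ (w l)) (Finset.mem_univ l)]
      rw [h4]
      exact mul_dvd_mul ((hreg l (Finset.ne_of_mem_erase hl) i).mul_left _) dvd_rfl
    have h5 : ψ (w l₀) ∣ algebraMap k (PowerSeries κ) (lam l₀) * ψ (a l₀ i) := by
      have h6 : ψ (w l₀) * ∏ l' ∈ Finset.univ.erase l₀, ψ (w l') ∣
          algebraMap k (PowerSeries κ) (lam l₀) * ψ (a l₀ i) *
            ∏ l' ∈ Finset.univ.erase l₀, ψ (w l') := by
        rw [eq_neg_of_add_eq_zero_left h1]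
        exact (dvd_neg).2 h3
      exact (mul_dvd_mul_iff_right hY').1 h6
    have hlu : IsUnit (algebraMap k (PowerSeries κ) (lam l₀)) :=
      (isUnit_iff_ne_zero.2 hlam).map _
    have h7 : ψ (w l₀) ∣ ψ (a l₀ i) := (hlu.dvd_mul_left).1 h5
    have h8 : ψ (w l₀) * ψ (up (h l₀)) ∣ ψ (w l₀) * ψ (up (pderiv i (h l₀))) := by
      have h9 : ψ (w l₀) * ψ (up (h l₀)) ∣ ψ (a l₀ i) * ψ (up (h l₀)) :=
        mul_dvd_mul h7 dvd_rfl
      have h10 := dvd_sub h9 hres
      rwa [sub_sub_cancel] at h10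
    have h11 : ψ (up (h l₀)) ∣ ψ (up (pderiv i (h l₀))) := (mul_dvd_mul_iff_left (hw0 l₀)).1 h8
    have h12 : rd ψ (up (h l₀)) = 0 := (hj _).2 (((hH l₀).iff _).2 dvd_rfl)
    have h13 : rd ψ (up (pderiv i (h l₀))) = 0 := by
      obtain ⟨c, hc⟩ := h11
      unfold rd at h12 ⊢
      rw [hc, map_mul, h12, zero_mul]
    exact ((hH l₀).iff _).1 ((hj _).1 h13)
  exact not_irreducible_of_pderiv (h l₀) hkey (hH l₀).irr

end Pool.Agent.H19.VZ
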