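import Pool.Agent.H19.VZ.TI2
import Pool.Agent.H8.HX.GDX

/-!
# Non-fibered rational self-maps (`MP_0cda1a_ag`), row REL: invariant forms give an invariant
function
-/

open MvPolynomial
open Pool.Agent.H12.ZD (pmap)
open Pool.Agent.H18.HIT Pool.Agent.H18.HX Pool.Agent.H18.VZ

namespace Pool.Agent.H19.VZ

section

theorem not_dvd_one' {N : ℕ} {k : Type} [Field k] {P : Po (N + 1) k} (hP : Prime P) :
    ¬ P ∣ 1 := by
  intro h
  exact hP.not_isUnit (isUnit_of_dvd_one h)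

variable {N : ℕ} {k : Type} [Field k] {P : Po (N + 1) k} {K : Type*} [Field K]
  (Ξ : Po (N + 1) k →+* K)

/-- quotients of homogeneous polynomials of the same degree -/
def HQ (P : Po (N + 1) k) (x : K) : Prop :=
  ∃ (t : ℕ) (A B : Po (N + 1) k), A.IsHomogeneous t ∧ B.IsHomogeneous t ∧ ¬ P ∣ B ∧
    x = Ξ A / Ξ B

variable (hP : Prime P) (hΞ : ∀ c, Ξ c = 0 ↔ P ∣ c)

/-- the field of these quotients -/
def K0 : Subfield K where
  carrier := {x | HQ Ξ P x}
  mul_mem' := by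
    rintro x y ⟨t, A, B, hA, hB, hPB, rfl⟩ ⟨t', A', B', hA', hB', hPB', rfl⟩
    refine ⟨t + t', A * A', B * B', hA.mul hA', hB.mul hB',
      fun h => (hP.dvd_or_dvd h).elim hPB hPB', ?_⟩
    rw [map_mul, map_mul, div_mul_div_comm]
  one_mem' := ⟨0, 1, 1, isHomogeneous_one _ _, isHomogeneous_one _ _,
    not_dvd_one' hP, by rw [map_one, div_one]⟩
  add_mem' := by
    rintro x y ⟨t, A, B, hA, hB, hPB, rfl⟩ ⟨t', A', B', hA', hB', hPB', rfl⟩
    have h1 : Ξ B ≠ 0 := fun h => hPB ((hΞ _).1 h)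
    have h2 : Ξ B' ≠ 0 := fun h => hPB' ((hΞ _).1 h)
    refine ⟨t + t', A * B' + B * A', B * B', (hA.mul hB').add (hB.mul hA'), hB.mul hB',
      fun h => (hP.dvd_or_dvd h).elim hPB hPB', ?_⟩
    rw [map_add, map_mul, map_mul, map_mul, div_add_div _ _ h1 h2]
  zero_mem' := ⟨0, 0, 1, isHomogeneous_zero _ _ _, isHomogeneous_one _ _,
    not_dvd_one' hP, by rw [map_zero, zero_div]⟩
  neg_mem' := by
    rintro x ⟨t, A, B, hA, hB, hPB, rfl⟩
    refine ⟨t, -A, B, (homogeneousSubmodule (Fin (N + 1)) k t).neg_mem hA, hB, hPB, ?_⟩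
    rw [map_neg, neg_div]
  inv_mem' := by
    rintro x ⟨t, A, B, hA, hB, hPB, rfl⟩
    by_cases h : P ∣ A
    · refine ⟨0, 0, 1, isHomogeneous_zero _ _ _, isHomogeneous_one _ _,
        not_dvd_one' hP, ?_⟩
      rw [(hΞ A).2 h, zero_div, inv_zero, map_zero, zero_div]
    · exact ⟨t, B, A, hB, hA, h, by rw [inv_div]⟩

theorem mem_K0 (x : K) : x ∈ K0 Ξ hP hΞ ↔ HQ Ξ P x := Iff.rfl

variable {F : Tup (N + 1) k} {d : ℕ}

include hP hΞ in
/-- the linear algebra of the row -/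
theorem rel_aux [CharZero k] (hFh : ∀ i, (F i).IsHomogeneous d) (Fs : K →+* K)
    (hFs : ∀ c, Fs (Ξ c) = Ξ (aeval F c)) {m : ℕ}
    (a : Fin (N + 1) → Fin N → Po (N + 1) k) (w : Po (N + 1) k) (hw : ¬ P ∣ w)
    (hPx : ¬ P ∣ pderiv 0 P) (ha : ∀ μ i, (a μ i).IsHomogeneous m)
    (hrel : ∀ μ j, P ∣ w * ∑ i, aeval F (a μ i) * dd P j (F i.succ) -
      a μ j * aeval F w * pderiv 0 P)
    (hind : ∀ lam : Fin (N + 1) → k, (∀ i, P ∣ ∑ μ, C (lam μ) * a μ i) → lam = 0) :
    ¬ NIv P F := by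
  classical
  intro hNIv
  have hne : ∀ c, ¬ P ∣ c → Ξ c ≠ 0 := fun c hc h => hc ((hΞ c).1 h)
  have hFnd : ∀ c, ¬ P ∣ c → ¬ P ∣ aeval F c := by
    intro c hc h
    have h1 : Fs (Ξ c) = 0 := by rw [hFs, (hΞ _).2 h]
    exact hne c hc ((map_eq_zero Fs).1 h1)
  -- a homogeneous element of degree `m`
  obtain ⟨μ₁, i₁, hD⟩ : ∃ μ i, ¬ P ∣ a μ i := by
    by_contra hcon
    push Not at hcon
    have h1 := hind (fun _ => 1) fun i => Finset.dvd_sum fun μ _ => (hcon μ i).mul_left _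
    exact one_ne_zero (congrFun h1 0)
  set D := a μ₁ i₁ with hDdef
  have hD0 : Ξ D ≠ 0 := hne D hD
  have hcmem : ∀ n i, Ξ (a n i) / Ξ D ∈ K0 Ξ hP hΞ := fun n i =>
    ⟨m, a n i, D, ha n i, ha _ _, hD, rfl⟩
  -- the solutions
  set S : Set (Fin (N + 1) → K0 Ξ hP hΞ) :=
    {g | g ≠ 0 ∧ ∀ i, ∑ n, (g n : K) * Ξ (a n i) = 0} with hS
  have hSne : S.Nonempty := by
    obtain ⟨b, hb, hb'⟩ := exists_rel (R := K0 Ξ hP hΞ) N fun n i => ⟨Ξ (a n i) / Ξ D, hcmem n i⟩
    refine ⟨b, hb, fun i => ?_⟩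
    have h1 := congrArg (fun x : K0 Ξ hP hΞ => (x : K) * Ξ D) (hb' i)
    simp only [AddSubmonoidClass.coe_finsetSum, ZeroMemClass.coe_zero, zero_mul,
      MulMemClass.coe_mul, Finset.sum_mul] at h1
    rw [← h1]
    refine Finset.sum_congr rfl fun n _ => ?_
    field_simp
  obtain ⟨g, hgS, hmin⟩ := (measure fun g : Fin (N + 1) → K0 Ξ hP hΞ =>
    (Finset.univ.filter fun n => g n ≠ 0).card).wf.has_min S hSne
  obtain ⟨hg0, hg⟩ := hgS
  obtain ⟨μ₀, hμ₀⟩ := Function.ne_iff.1 hg0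
  have hμ₀' : g μ₀ ≠ 0 := hμ₀
  set g' : Fin (N + 1) → K0 Ξ hP hΞ := fun n => g n / g μ₀ with hg'
  have hg'1 : g' μ₀ = 1 := div_self hμ₀'
  have hg'sum : ∀ i, ∑ n, (g' n : K) * Ξ (a n i) = 0 := by
    intro i
    have h1 : ∑ n, (g' n : K) * Ξ (a n i) = (∑ n, (g n : K) * Ξ (a n i)) / (g μ₀ : K) := by
      rw [Finset.sum_div]
      refine Finset.sum_congr rfl fun n _ => ?_
      rw [hg']
      push_cast
      ring
    rw [h1, hg i, zero_div]
  have hFmem : ∀ x : K0 Ξ hP hΞ, Fs (x : K) ∈ K0 Ξ hP hΞ := by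
    rintro ⟨x, t, A, B, hA, hB, hPB, rfl⟩
    refine ⟨d * t, aeval F A, aeval F B, IsHomogeneous.aeval hA F hFh,
      IsHomogeneous.aeval hB F hFh, hFnd B hPB, ?_⟩
    simp only [map_div₀, hFs]
  set g'' : Fin (N + 1) → K0 Ξ hP hΞ := fun n => ⟨Fs (g' n : K), hFmem _⟩ with hg''
  have hkey : ∀ n j, Ξ w * ∑ i, Fs (Ξ (a n i)) * Ξ (dd P j (F i.succ)) =
      Ξ (a n j) * Fs (Ξ w) * Ξ (pderiv 0 P) := by
    intro n j
    have h1 := (hΞ _).2 (hrel n j)
    rw [map_sub, sub_eq_zero, map_mul, map_sum, map_mul, map_mul] at h1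
    simp_rw [map_mul] at h1
    simp_rw [hFs]
    exact h1
  have hg''sum : ∀ j, ∑ n, (g'' n : K) * Ξ (a n j) = 0 := by
    intro j
    have h1 : ∀ i, ∑ n, Fs (g' n : K) * Fs (Ξ (a n i)) = 0 := by
      intro i
      have h2 := congrArg Fs (hg'sum i)
      rw [map_sum, map_zero] at h2
      simp_rw [map_mul] at h2
      exact h2
    have h3 : (∑ n, (g'' n : K) * Ξ (a n j)) * (Fs (Ξ w) * Ξ (pderiv 0 P)) = 0 := by
      rw [Finset.sum_mul]
      calc ∑ n, (g'' n : K) * Ξ (a n j) * (Fs (Ξ w) * Ξ (pderiv 0 P))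
          = ∑ n, Fs (g' n : K) * (Ξ w * ∑ i, Fs (Ξ (a n i)) * Ξ (dd P j (F i.succ))) := by
            refine Finset.sum_congr rfl fun n _ => ?_
            rw [hkey n j]
            change Fs (g' n : K) * Ξ (a n j) * (Fs (Ξ w) * Ξ (pderiv 0 P)) = _
            ring
        _ = Ξ w * ∑ i, (∑ n, Fs (g' n : K) * Fs (Ξ (a n i))) * Ξ (dd P j (F i.succ)) := by
            simp_rw [Finset.mul_sum, Finset.sum_mul, Finset.mul_sum]
            rw [Finset.sum_comm]
            refine Finset.sum_congr rfl fun i _ => Finset.sum_congr rfl fun n _ => ?_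
            ring
        _ = 0 := by
            simp_rw [h1, zero_mul, Finset.sum_const_zero, mul_zero]
    have h4 : Fs (Ξ w) * Ξ (pderiv 0 P) ≠ 0 :=
      mul_ne_zero (fun h => hne w hw ((map_eq_zero Fs).1 h)) (hne _ hPx)
    exact (mul_eq_zero.1 h3).resolve_right h4
  have heq : ∀ n, Fs (g' n : K) = (g' n : K) := by
    by_contra hcon
    push Not at hcon
    obtain ⟨n₀, hn₀⟩ := hcon
    set f : Fin (N + 1) → K0 Ξ hP hΞ := fun n => g'' n - g' n with hf
    have hfS : f ∈ S := by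
      refine ⟨?_, fun i => ?_⟩
      · intro h0
        have h1 := congrFun h0 n₀
        have h2 : (g'' n₀ : K) - (g' n₀ : K) = 0 := congrArg (fun x : K0 Ξ hP hΞ => (x : K)) h1
        exact hn₀ (sub_eq_zero.1 h2)
      · have h1 : ∑ n, (f n : K) * Ξ (a n i) = ∑ n, (g'' n : K) * Ξ (a n i) -
            ∑ n, (g' n : K) * Ξ (a n i) := by
          rw [← Finset.sum_sub_distrib]
          refine Finset.sum_congr rfl fun n _ => ?_
          rw [← sub_mul]
          rfl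
        rw [h1, hg'sum i, hg''sum i, sub_zero]
    apply hmin f hfS
    change (Finset.univ.filter fun n => f n ≠ 0).card < (Finset.univ.filter fun n => g n ≠ 0).card
    apply Finset.card_lt_card
    rw [Finset.ssubset_iff_of_subset]
    · refine ⟨μ₀, Finset.mem_filter.2 ⟨Finset.mem_univ _, hμ₀'⟩, ?_⟩
      intro hmem
      apply (Finset.mem_filter.1 hmem).2
      apply Subtype.ext
      change Fs (g' μ₀ : K) - (g' μ₀ : K) = 0
      rw [hg'1]
      simp
    · intro n hn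
      refine Finset.mem_filter.2 ⟨Finset.mem_univ _, ?_⟩
      intro h0
      apply (Finset.mem_filter.1 hn).2
      apply Subtype.ext
      change Fs (g' n : K) - (g' n : K) = 0
      have h1 : g' n = 0 := by rw [hg']; simp [h0]
      rw [h1]
      simp
  have hconst : ∀ n, ∃ s : k, (g' n : K) = Ξ (C s) := by
    intro n
    obtain ⟨t, A, B, hA, hB, hPB, hx⟩ := (g' n).2
    have hB0 := hne B hPB
    have hFB0 := hne _ (hFnd B hPB)
    have h1 := heq n
    rw [hx, map_div₀, hFs, hFs, div_eq_div_iff hFB0 hB0] at h1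
    have h2 : P ∣ aeval F A * B - aeval F B * A := by
      rw [← hΞ, map_sub, map_mul, map_mul, h1]
      ring
    obtain ⟨s, hs⟩ := hNIv t A B hA hB hPB h2
    refine ⟨s, ?_⟩
    rw [hx, div_eq_iff hB0, ← map_mul, ← sub_eq_zero, ← map_sub]
    exact (hΞ _).2 hs
  choose s hs using hconst
  have hs0 : s = 0 := by
    apply hind
    intro i
    rw [← hΞ, map_sum]
    simp_rw [map_mul, ← hs]
    exact hg'sum i
  have h1 := hs μ₀
  rw [hg'1, hs0, Pi.zero_apply, C_0, map_zero] at h1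
  exact one_ne_zero h1

end

theorem pf_REL : Pool.Agent.H18.VZ.T_REL := by
  classical
  intro N r d m k _ _ _ P F a w hP hFh hF hw ha hrel hind
  have hPp : Prime P := hP.irr.prime
  have hI : (Ideal.span {P}).IsPrime :=
    (Ideal.span_singleton_prime hP.irr.ne_zero).mpr hPp
  set R := Po (N + 1) k ⧸ Ideal.span {P} with hR
  have hdom : IsDomain R := Ideal.Quotient.isDomain _
  set Ξ : Po (N + 1) k →+* FractionRing R :=
    (algebraMap R (FractionRing R)).comp (Ideal.Quotient.mk (Ideal.span {P})) with hΞd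
  have hΞ : ∀ c, Ξ c = 0 ↔ P ∣ c := by
    intro c
    rw [hΞd, RingHom.comp_apply, FaithfulSMul.algebraMap_eq_zero_iff,
      Ideal.Quotient.eq_zero_iff_mem, Ideal.mem_span_singleton]
  set j : R →+* R := Ideal.quotientMap (Ideal.span {P}) (aeval F : Po (N + 1) k →ₐ[k] _).toRingHom
    (fun c hc => hF.inv c hc) with hj
  have hjmk : ∀ c, j (Ideal.Quotient.mk _ c) = Ideal.Quotient.mk _ (aeval F c) := fun c => rfl
  have hjinj : Function.Injective j := by
    rw [injective_iff_map_eq_zero]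
    intro x hx
    obtain ⟨c, rfl⟩ := Ideal.Quotient.mk_surjective x
    rw [hjmk, Ideal.Quotient.eq_zero_iff_mem] at hx
    rw [Ideal.Quotient.eq_zero_iff_mem]
    exact hF.inj c hx
  have hcomp : Function.Injective ((algebraMap R (FractionRing R)).comp j) :=
    (FaithfulSMul.algebraMap_injective R (FractionRing R)).comp hjinj
  have hFs : ∀ c, IsFractionRing.lift (K := FractionRing R) hcomp (Ξ c) = Ξ (aeval F c) := by
    intro c
    rw [hΞd, RingHom.comp_apply, IsFractionRing.lift_algebraMap, RingHom.comp_apply, hjmk]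
    rfl
  exact rel_aux Ξ hPp hΞ hFh (IsFractionRing.lift (K := FractionRing R) hcomp) hFs a w hw
    (Pool.Agent.H8.HX.not_dvd_pderiv hP.mon hP.irr) ha hrel hind

end Pool.Agent.H19.VZ
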