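import Pool.Agent.H18.VZ.Targets
import Pool.Agent.H70.HX.NRX
import Pool.Agent.H64.HX.TRV

/-!
# Non-fibered rational self-maps (`MP_0cda1a_ag`), row TI2: hypersurfaces whose image is in a
totally invariant hypersurface
-/

open MvPolynomial
open Pool.Agent.H12.ZD (pmap)
open Pool.Agent.H18.HIT Pool.Agent.H18.HX Pool.Agent.H18.VZ

namespace Pool.Agent.H19.VZ

/-- more vectors than coordinates over a domain -/
theorem exists_rel {R : Type*} [CommRing R] [IsDomain R] (e : ℕ) (c : Fin (e + 1) → Fin e → R) :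
    ∃ b : Fin (e + 1) → R, b ≠ 0 ∧ ∀ i, ∑ n, b n * c n i = 0 := by
  classical
  have hdet : (Matrix.of fun (i n : Fin (e + 1)) =>
      (Fin.snoc (α := fun _ => R) (fun i : Fin e => c n i) 0 : Fin (e + 1) → R) i).det = 0 := by
    apply Matrix.det_eq_zero_of_row_eq_zero (Fin.last e)
    intro n
    rw [Matrix.of_apply, Fin.snoc_last]
  obtain ⟨b, hb, hM⟩ := Matrix.exists_mulVec_eq_zero_iff.2 hdet
  refine ⟨b, hb, fun i => ?_⟩
  have h1 := congrFun hM i.castSucc
  rw [Matrix.mulVec, dotProduct] at h1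
  simp only [Matrix.of_apply, Fin.snoc_castSucc, Pi.zero_apply] at h1
  rw [← h1]
  exact Finset.sum_congr rfl fun n _ => mul_comm _ _

/-- a relation can be cut at the last nonzero coefficient -/
theorem cut_rel {R S : Type*} [CommRing R] [CommRing S] (φ : R →+* S) (y : S) (m : ℕ)
    (b : Fin (m + 1) → R) (hb : b ≠ 0) (h : ∑ i, φ (b i) * y ^ (i : ℕ) = 0) :
    ∃ (n : ℕ) (a : Fin (n + 1) → R), a (Fin.last n) ≠ 0 ∧ ∑ i, φ (a i) * y ^ (i : ℕ) = 0 := by
  classical
  set p : Polynomial R := ∑ i : Fin (m + 1), Polynomial.C (b i) * Polynomial.X ^ (i : ℕ) with hp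
  have hcoeff : ∀ i : Fin (m + 1), p.coeff i = b i := by
    intro i
    rw [hp, Polynomial.finsetSum_coeff]
    simp only [Polynomial.coeff_C_mul, Polynomial.coeff_X_pow]
    rw [Finset.sum_eq_single i]
    · simp
    · intro j _ hj
      have : ((i : ℕ) = (j : ℕ)) ↔ False := by
        rw [iff_false]
        intro h
        exact hj (Fin.ext h.symm)
      simp [this]
    · intro h
      exact absurd (Finset.mem_univ _) h
  have hp0 : p ≠ 0 := by
    intro h0
    apply hb
    funext i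
    rw [← hcoeff i, h0, Polynomial.coeff_zero]
    rfl
  have hev : p.eval₂ φ y = 0 := by
    rw [hp, Polynomial.eval₂_finsetSum]
    simp only [Polynomial.eval₂_mul, Polynomial.eval₂_C, Polynomial.eval₂_pow, Polynomial.eval₂_X]
    exact h
  refine ⟨p.natDegree, fun i => p.coeff i, ?_, ?_⟩
  · simp only [Fin.val_last]
    exact Polynomial.leadingCoeff_ne_zero.2 hp0
  · rw [Fin.sum_univ_eq_sum_range (fun i => φ (p.coeff i) * y ^ i), ← Polynomial.eval₂_eq_sum_range]
    exact hev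

section

variable {N r e : ℕ} {k : Type} [Field k] {P : Po (N + 1) k} {F : Tup (N + 1) k}
  {θ Δ : Po (N + 1) k}

/-- algebraicity over the pulled back functions -/
theorem alg_over (hBas : Bas P F e θ Δ) (E : Ideal (Po (N + 1) k)) [hE : E.IsPrime] (hPE : P ∈ E)
    (hΔ : aeval F Δ ∉ E) (y : Po (N + 1) k ⧸ E) :
    ∃ (n : ℕ) (a : Fin (n + 1) → Po (N + 1) k ⧸ (E.comap (aeval F : Po (N + 1) k →ₐ[k] Po (N + 1) k))),
      a (Fin.last n) ≠ 0 ∧
        ∑ i : Fin (n + 1), Ideal.quotientMapₐ E (aeval F : Po (N + 1) k →ₐ[k] Po (N + 1) k)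
          (le_refl _) (a i) * y ^ (i : ℕ) = 0 := by
  classical
  obtain ⟨u, rfl⟩ := Ideal.Quotient.mk_surjective y
  set E' := E.comap (aeval F : Po (N + 1) k →ₐ[k] Po (N + 1) k) with hE'
  set φ := Ideal.quotientMapₐ E (aeval F : Po (N + 1) k →ₐ[k] Po (N + 1) k) (le_refl E') with hφ
  have hφmk : ∀ c, φ (Ideal.Quotient.mk E' c) = Ideal.Quotient.mk E (aeval F c) := fun c => rfl
  have hprime : E'.IsPrime := Ideal.comap_isPrime _ _
  have hgen : ∀ n : Fin (e + 1), ∃ (M : ℕ) (c : Fin e → Po (N + 1) k),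
      P ∣ aeval F Δ ^ M * u ^ (n : ℕ) - ∑ i : Fin e, θ ^ (i : ℕ) * aeval F (c i) := fun n =>
    hBas.gen _
  choose M c hc using hgen
  set M' : ℕ := ∑ n, M n with hM'
  have hMle : ∀ n, M n ≤ M' := fun n => Finset.single_le_sum (fun _ _ => Nat.zero_le _)
    (Finset.mem_univ n)
  have hmk : ∀ n : Fin (e + 1), Ideal.Quotient.mk E (aeval F Δ) ^ M' *
      Ideal.Quotient.mk E u ^ (n : ℕ) = ∑ i : Fin e, Ideal.Quotient.mk E θ ^ (i : ℕ) *
        φ (Ideal.Quotient.mk E' (Δ ^ (M' - M n) * c n i)) := by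
    intro n
    have h1 : Ideal.Quotient.mk E (aeval F Δ ^ M n * u ^ (n : ℕ)) =
        Ideal.Quotient.mk E (∑ i : Fin e, θ ^ (i : ℕ) * aeval F (c n i)) := by
      rw [Ideal.Quotient.eq]
      exact E.mem_of_dvd (hc n) hPE
    rw [map_mul, map_pow, map_pow, map_sum] at h1
    calc Ideal.Quotient.mk E (aeval F Δ) ^ M' * Ideal.Quotient.mk E u ^ (n : ℕ)
        = Ideal.Quotient.mk E (aeval F Δ) ^ (M' - M n) *
          (Ideal.Quotient.mk E (aeval F Δ) ^ M n * Ideal.Quotient.mk E u ^ (n : ℕ)) := by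
          rw [← mul_assoc, ← pow_add, Nat.sub_add_cancel (hMle n)]
      _ = ∑ i : Fin e, Ideal.Quotient.mk E θ ^ (i : ℕ) *
        φ (Ideal.Quotient.mk E' (Δ ^ (M' - M n) * c n i)) := by
          rw [h1, Finset.mul_sum]
          refine Finset.sum_congr rfl fun i _ => ?_
          rw [hφmk, map_mul, map_mul, map_mul, map_pow, map_pow, map_pow]
          ring
  obtain ⟨b, hb, hrel⟩ := exists_rel (R := Po (N + 1) k ⧸ E') e
    fun n i => Ideal.Quotient.mk E' (Δ ^ (M' - M n) * c n i)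
  have hΔ' : Ideal.Quotient.mk E' Δ ≠ 0 := by
    intro h0
    rw [Ideal.Quotient.eq_zero_iff_mem] at h0
    exact hΔ h0
  refine cut_rel (φ : (Po (N + 1) k ⧸ E') →+* (Po (N + 1) k ⧸ E)) (Ideal.Quotient.mk E u) e
    (fun n => b n * Ideal.Quotient.mk E' Δ ^ M') ?_ ?_
  · intro h0
    apply hb
    funext n
    have h1 := congrFun h0 n
    exact (mul_eq_zero.1 h1).resolve_right (pow_ne_zero _ hΔ')
  · calc ∑ i : Fin (e + 1), (φ : (Po (N + 1) k ⧸ E') →+* (Po (N + 1) k ⧸ E))
          (b i * Ideal.Quotient.mk E' Δ ^ M') * Ideal.Quotient.mk E u ^ (i : ℕ)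
        = ∑ n : Fin (e + 1), φ (b n) * ∑ i : Fin e, Ideal.Quotient.mk E θ ^ (i : ℕ) *
          φ (Ideal.Quotient.mk E' (Δ ^ (M' - M n) * c n i)) := by
          refine Finset.sum_congr rfl fun n _ => ?_
          rw [← hmk n]
          have h2 : (φ : (Po (N + 1) k ⧸ E') →+* (Po (N + 1) k ⧸ E))
              (b n * Ideal.Quotient.mk E' Δ ^ M') =
              φ (b n) * Ideal.Quotient.mk E (aeval F Δ) ^ M' := by
            rw [map_mul, map_pow]
            rfl
          rw [h2]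
          ring
      _ = ∑ i : Fin e, Ideal.Quotient.mk E θ ^ (i : ℕ) *
          φ (∑ n, b n * Ideal.Quotient.mk E' (Δ ^ (M' - M n) * c n i)) := by
          simp_rw [map_sum, Finset.mul_sum]
          rw [Finset.sum_comm]
          refine Finset.sum_congr rfl fun i _ => Finset.sum_congr rfl fun n _ => ?_
          rw [map_mul φ (b n)]
          ring
      _ = 0 := by
          refine Finset.sum_eq_zero fun i _ => ?_
          rw [hrel i, map_zero, mul_zero]

end

theorem pf_TI2 (hDVS : T_DVS) (hTDG : T_TDG) : T_TI2 := by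
  classical
  intro N r e k _ _ _ P F θ Δ hP hF hBas
  have hPprime : Prime P := hP.irr.prime
  have hPΔ : ¬ P ∣ aeval F Δ := by
    intro h
    exact hBas.ne (Ideal.mem_span_singleton.1 (hF.inj _ (Ideal.mem_span_singleton.2 h)))
  obtain ⟨g₀, A, hg₀, hgA⟩ := Pool.Agent.H70.HX.pf_NRX N k P (aeval F Δ) hP.irr hP.mon hPΔ
  refine ⟨g₀, hg₀, ?_⟩
  intro E q hE hq H h hH hTot hPx hHE
  have hEp := hE.prime
  have hHp := hH.prime
  have hΔE : aeval F Δ ∉ E := by
    intro hmem
    apply hq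
    rw [← hE.iff]
    have h1 : up g₀ - aeval F Δ * A ∈ E := E.mem_of_dvd hgA hE.mem
    have h2 : aeval F Δ * A ∈ E := E.mul_mem_right _ hmem
    have h3 := E.add_mem h1 h2
    rwa [sub_add_cancel] at h3
  have hle : H ≤ E.comap (aeval F : Po (N + 1) k →ₐ[k] Po (N + 1) k) := fun c hc => hHE c hc
  have hE'H : E.comap (aeval F : Po (N + 1) k →ₐ[k] Po (N + 1) k) = H := by
    refine hTDG N k P H E h q hP.mon hH hE _ (Ideal.comap_isPrime _ _) hle
      ⟨Ideal.quotientMapₐ E (aeval F : Po (N + 1) k →ₐ[k] Po (N + 1) k) (le_refl _), ?_,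
        alg_over hBas E hE.mem hΔE⟩
    rw [injective_iff_map_eq_zero]
    intro x hx
    obtain ⟨c, rfl⟩ := Ideal.Quotient.mk_surjective x
    have h1 : Ideal.Quotient.mk E (aeval F c) = 0 := hx
    rw [Ideal.Quotient.eq_zero_iff_mem] at h1 ⊢
    exact h1
  by_contra hEH
  have hnle : ¬ H ≤ E := by
    intro hle'
    apply hEH
    refine hTDG N k P H E h q hP.mon hH hE E hEp hle' ⟨AlgHom.id k _, fun _ _ h => h, ?_⟩
    intro y
    refine ⟨1, ![-y, 1], ?_, ?_⟩
    · simp
    · simp [Fin.sum_univ_two]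
  obtain ⟨w, hwH, hwE⟩ := SetLike.not_le_iff_exists.1 hnle
  obtain ⟨M, c, hc⟩ := hBas.gen w
  have hPΔM : ¬ P ∣ Δ ^ M := fun h => hBas.ne (hPprime.dvd_of_dvd_pow h)
  obtain ⟨μ, s, c', hs, hdiv, i₀, hi₀⟩ := hDVS N r (e + 1) k P H h
    (Fin.snoc (α := fun _ => Po (N + 1) k) c (Δ ^ M)) hP hH hPx
    ⟨Fin.last e, by rw [Fin.snoc_last]; exact hPΔM⟩
  have hdl : P ∣ s * Δ ^ M - up h ^ μ * c' (Fin.last e) := by
    have := hdiv (Fin.last e)
    rwa [Fin.snoc_last] at this
  have hdi : ∀ i : Fin e, P ∣ s * c i - up h ^ μ * c' i.castSucc := by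
    intro i
    have := hdiv i.castSucc
    rwa [Fin.snoc_castSucc] at this
  have hFd : ∀ x : Po (N + 1) k, P ∣ x → P ∣ aeval F x := by
    intro x hx
    exact Ideal.mem_span_singleton.1 (hF.inv _ (Ideal.mem_span_singleton.2 hx))
  have hup : ¬ P ∣ aeval F (up h) := by
    intro hd
    have h1 := Ideal.mem_span_singleton.1 (hF.inj _ (Ideal.mem_span_singleton.2 hd))
    exact Pool.Agent.H64.HX.not_dvd_up hP.mon hP.irr hH.irr.ne_zero h1
  have hrel : P ∣ aeval F (c' (Fin.last e)) * w -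
      ∑ i : Fin e, θ ^ (i : ℕ) * aeval F (c' i.castSucc) := by
    have h1 : P ∣ aeval F (up h) ^ μ * (aeval F (c' (Fin.last e)) * w -
        ∑ i : Fin e, θ ^ (i : ℕ) * aeval F (c' i.castSucc)) := by
      have h2 : aeval F (up h) ^ μ * (aeval F (c' (Fin.last e)) * w -
          ∑ i : Fin e, θ ^ (i : ℕ) * aeval F (c' i.castSucc)) =
          aeval F s * (aeval F Δ ^ M * w - ∑ i : Fin e, θ ^ (i : ℕ) * aeval F (c i)) -
          w * aeval F (s * Δ ^ M - up h ^ μ * c' (Fin.last e)) +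
          ∑ i : Fin e, θ ^ (i : ℕ) * aeval F (s * c i - up h ^ μ * c' i.castSucc) := by
        simp only [map_sub, map_mul, map_pow]
        have h3 : ∑ i : Fin e, θ ^ (i : ℕ) * (aeval F s * aeval F (c i) -
            aeval F (up h) ^ μ * aeval F (c' i.castSucc)) =
            aeval F s * ∑ i : Fin e, θ ^ (i : ℕ) * aeval F (c i) -
            aeval F (up h) ^ μ * ∑ i : Fin e, θ ^ (i : ℕ) * aeval F (c' i.castSucc) := by
          rw [Finset.mul_sum, Finset.mul_sum, ← Finset.sum_sub_distrib]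
          refine Finset.sum_congr rfl fun i _ => ?_
          ring
        rw [h3]
        ring
      rw [h2]
      refine dvd_add (dvd_sub (hc.mul_left _) ((hFd _ hdl).mul_left _)) ?_
      exact Finset.dvd_sum fun i _ => (hFd _ (hdi i)).mul_left _
    exact (hPprime.dvd_or_dvd h1).resolve_left fun h2 => hup (hPprime.dvd_of_dvd_pow h2)
  have hsum : (∑ i : Fin e, θ ^ (i : ℕ) * aeval F (c' i.castSucc)) ∈ H := by
    have h1 := H.mem_of_dvd hrel hH.mem
    have h2 : aeval F (c' (Fin.last e)) * w ∈ H := H.mul_mem_left _ hwH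
    have h3 := H.sub_mem h2 h1
    rwa [sub_sub_cancel] at h3
  have hci : ∀ i : Fin e, c' i.castSucc ∈ H := hTot.ind _ hsum
  have hlast : c' (Fin.last e) ∉ H := by
    intro hl
    apply hi₀
    induction i₀ using Fin.lastCases with
    | last => exact hl
    | cast i => exact hci i
  have h1 : aeval F (c' (Fin.last e)) * w ∈ E := by
    have h2 := E.mem_of_dvd hrel hE.mem
    have h3 : (∑ i : Fin e, θ ^ (i : ℕ) * aeval F (c' i.castSucc)) ∈ E :=
      E.sum_mem fun i _ => E.mul_mem_left _ (hHE _ (hci i))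
    have h4 := E.add_mem h2 h3
    rwa [sub_add_cancel] at h4
  rcases hEp.mem_or_mem h1 with h2 | h2
  · apply hlast
    rw [← hE'H]
    exact h2
  · exact hwE h2

end Pool.Agent.H19.VZ
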